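import Pool.Agent.N289.NR.Main
import Pool.Agent.N480.Cors2
import Pool.Agent.Helper937.McsForce

/-!
# MP_ba6bfd_gt: compact spaces whose small closures are Eberlein compact

The negative answer is consistent: it holds in an extension without new subsets of `ℕ` of any
model of set theory.
-/

set_option autoImplicit false

namespace Pool.Agent.Results.MP_ba6bfd_gt.ConsistentlyNo

open Set Cardinal
open Pool.Agent.Helper937.Mcs (SD NonReflecting)

/-- Eberlein compactness of a compact space, as in the frozen statement: the space embeds into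
some `c₀(Γ)` as a bounded pointwise compact set. -/
def Eberlein (X : Type) [TopologicalSpace X] : Prop :=
  ∃ (Γ : Type) (f : X → (Γ → ℝ)), Continuous f ∧ Function.Injective f ∧
    (∀ x, Filter.Tendsto (f x) Filter.cofinite (nhds 0)) ∧
    ∃ M : ℝ, ∀ x γ, |f x γ| ≤ M

/-- The positive answer to Q1 (this is the frozen statement). -/
def PositiveAnswer : Prop :=
  ∀ (X : Type) [TopologicalSpace X] [CompactSpace X] [T2Space X],
    (∀ A : Set X, #A ≤ 𝔠 → Eberlein (closure A)) → Eberlein X

/-- The space embeds into some `ℝ^Γ` with all points of countable support. -/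
def Corson (X : Type) [TopologicalSpace X] : Prop :=
  ∃ (Γ : Type) (f : X → (Γ → ℝ)), Continuous f ∧ Function.Injective f ∧
    ∀ x, {γ | f x γ ≠ 0}.Countable

/-- The space embeds into some `{0, 1}^Γ` with all points of finite support. -/
def StrongEberlein (X : Type) [TopologicalSpace X] : Prop :=
  ∃ (Γ : Type) (f : X → (Γ → ℝ)), Continuous f ∧ Function.Injective f ∧
    (∀ x γ, f x γ = 0 ∨ f x γ = 1) ∧ ∀ x, {γ | f x γ ≠ 0}.Finite

/-- A strong negative answer: the frozen statement fails; moreover some compact space, all of whose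
closures of subsets of size at most continuum are strong Eberlein compact, is not even Corson
compact. -/
def StrongNegativeAnswer : Prop :=
  ¬ PositiveAnswer ∧
  ∃ (X : Type) (_ : TopologicalSpace X) (_ : CompactSpace X) (_ : T2Space X),
    (∀ A : Set X, #A ≤ 𝔠 → StrongEberlein (closure A)) ∧ ¬ Corson X

theorem StrongEberlein.eb {X : Type} [TopologicalSpace X] (h : StrongEberlein X) : Eberlein X := by
  obtain ⟨Γ, f, h1, h2, h3, h4⟩ := h
  refine ⟨Γ, f, h1, h2, fun x => ?_, 1, fun x γ => ?_⟩
  · have h6 : (f x) =ᶠ[Filter.cofinite] fun _ => (0 : ℝ) := by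
      rw [Filter.EventuallyEq, Filter.eventually_cofinite]
      exact h4 x
    exact tendsto_const_nhds.congr' h6.symm
  · rcases h3 x γ with h | h <;> simp [h]

/-- **Main theorem** (no hypothesis).
(1) Some forcing notion forces the premise of (2); it adds no subset of `ℕ`.
(2) The premise implies the strong negative answer. -/
theorem result :
    (∃ (Θ : Type) (_ : LinearOrder Θ) (η : Θ → ℕ → Θ) (P : Type) (_ : Preorder P),
      Function.Injective η ∧ Nonempty P ∧ ∀ p : P, p ∈ NonReflecting P η) ∧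
    (∀ (Θ β : Type) [LinearOrder Θ] (η : Θ → ℕ → β), Function.Injective η →
      (∀ g : Set ℕ → Θ, ∃ γ, ∀ A, g A < γ) →
      (∃ S : Set Θ, (∀ γ, SD η (S ∩ Iio γ)) ∧ ¬ SD η S) → StrongNegativeAnswer) := by
  refine ⟨Pool.Agent.Helper937.Mcs.exists_forcing, ?_⟩
  intro Θ β _ η hη hb ⟨S, h1, h2⟩
  obtain ⟨X, i1, i2, i3, h4, h5⟩ :=
    Pool.Agent.N480.Cors.neg_of_nonReflecting η hη hb S h1 h2
  have h6 : ∀ A : Set X, #A ≤ 𝔠 → StrongEberlein (closure A) := by
    intro A hA
    obtain ⟨T, f, g1, g2⟩ := h4 A hA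
    exact ⟨T, f, g1.continuous, g1.injective, fun x γ => (g2 x).2 γ, fun x => (g2 x).1⟩
  have h7 : ¬ Corson X := by
    rintro ⟨Γ, f, g1, g2, g3⟩
    exact h5 ⟨Γ, f, (g1.isClosedEmbedding g2).isEmbedding, g3⟩
  exact ⟨fun hpos => h7 (Pool.Agent.N289.NR.Eb.co (hpos X fun A hA => (h6 A hA).eb)),
    X, i1, i2, i3, h6, h7⟩

end Pool.Agent.Results.MP_ba6bfd_gt.ConsistentlyNo
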