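import Pool.Agent.N289.NR.NotCorson

/-!
# MP_ba6bfd_gt: compact spaces whose small closures are Eberlein compact

Every nonreflecting stationary set of points of countable cofinality of a regular cardinal above
the continuum gives a counterexample.
-/

set_option autoImplicit false

namespace Pool.Agent.Results.MP_ba6bfd_gt.NeedsReflection

open Set Cardinal
open Pool.Agent.N289.NR (IsLadder Stationary ReflectsAt)

/-- Eberlein compactness of a compact space, as in the frozen statement: the space embeds into
some `c₀(Γ)` as a bounded pointwise compact set. -/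
def Eberlein (X : Type) [TopologicalSpace X] : Prop :=
  ∃ (Γ : Type) (f : X → (Γ → ℝ)), Continuous f ∧ Function.Injective f ∧
    (∀ x, Filter.Tendsto (f x) Filter.cofinite (nhds 0)) ∧
    ∃ M : ℝ, ∀ x γ, |f x γ| ≤ M

/-- The positive answer to Q1 (this is the frozen statement). -/
def PositiveAnswer : Prop :=
  ∀ (X : Type) [TopologicalSpace X] [CompactSpace X] [T2Space X],
    (∀ A : Set X, #A ≤ 𝔠 → Eberlein (closure A)) → Eberlein X

/-- The space embeds into some `ℝ^Γ` with all points of countable support. -/
def Corson (X : Type) [TopologicalSpace X] : Prop :=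
  ∃ (Γ : Type) (f : X → (Γ → ℝ)), Continuous f ∧ Function.Injective f ∧
    ∀ x, {γ | f x γ ≠ 0}.Countable

/-- The space embeds into the space of the subsets with at most two elements of some `Γ`. -/
def TwoSupported (X : Type) [TopologicalSpace X] : Prop :=
  ∃ (Γ : Type) (f : X → (Γ → ℝ)), Continuous f ∧ Function.Injective f ∧
    (∀ x γ, f x γ = 0 ∨ f x γ = 1) ∧ ∀ x, {γ | f x γ ≠ 0}.encard ≤ 2

/-- **Main theorem.** Let `κ` be a regular uncountable cardinal and `S` a nonreflecting stationary
set of points of countable cofinality of `κ`. Then there is a compact space which is not Corson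
compact, in which the closures of all sets of size less than `κ` embed into the space of at most
two-element sets; if `κ` is greater than the continuum then the answer to Q1 is negative. -/
theorem result (κ : Cardinal.{0}) (hκ : κ.IsRegular) (hω : ℵ₀ < κ) (S : Set κ.ord.ToType)
    (hcof : ∀ α ∈ S, ∃ η : ℕ → κ.ord.ToType, IsLadder η α) (hst : Stationary S)
    (hnr : ∀ δ, ¬ ReflectsAt S δ) :
    (∃ (X : Type) (_ : TopologicalSpace X) (_ : CompactSpace X) (_ : T2Space X),
      (∀ A : Set X, #A < κ → TwoSupported (closure A)) ∧ ¬ Corson X) ∧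
    (𝔠 < κ → ¬ PositiveAnswer) := by
  have h := Pool.Agent.N289.NR.main κ hκ hω S hcof hst hnr
  refine ⟨h, fun hc hpos => ?_⟩
  obtain ⟨X, i1, i2, i3, h1, h2⟩ := h
  exact h2 (Pool.Agent.N289.NR.Eb.co (hpos X fun A hA => (h1 A (hA.trans_lt hc)).eb))

end Pool.Agent.Results.MP_ba6bfd_gt.NeedsReflection
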